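import Pool.Agent.X249.AS.Red

/-!
# Arc-disjoint antistrong and strong spanning subdigraphs are hard to find

The reduction is from exact cover by 3-sets. The digraphs built have `N` vertices and `3 * N - 1`
arcs; an antistrong spanning subdigraph has at least `2 * N - 1` arcs and a strong one at least
`N`, so the strong one is a Hamiltonian cycle. Two extra vertices and a hub make the bipartite
representation of the rest connected for every Hamiltonian cycle. Each other vertex has only two
possible predecessors on the cycle; an element is a pair of tracks which have to be joined exactly
once, a triple is a detour, and the two are linked by gadgets with three vertices.
-/

namespace Pool.Agent.Results.MP_c99d13_lc.NPHard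

open Pool.Agent.NPC Pool.Agent.X249.AS

/-- It is NP-hard to decide whether a digraph has arc-disjoint spanning subdigraphs one of which
is antistrong and the other strong. -/
theorem result : NPHardP AntistrongPlusStrong := hard.toNPHardP

end Pool.Agent.Results.MP_c99d13_lc.NPHard
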